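import Mathlib

set_option autoImplicit false

open Cardinal Ordinal Set

namespace Pool.Agent.Results.MP_a3089e_lc.NonGalvin

universe u

/-- `Gal(U, μ, lam)`: every family of `lam` many (distinct) members of `U` has a subfamily of
size `μ` whose intersection is in `U`. -/
def Gal {P : Type u} (U : Ultrafilter P) (μ lam : Cardinal.{u}) : Prop :=
  ∀ S : Set (Set P), (∀ s ∈ S, s ∈ U) → #S = lam → ∃ T ⊆ S, #T = μ ∧ ⋂₀ T ∈ U

/-- `U` is a fine normal ultrafilter on `P_κ(X)` (`κ`-complete, fine, normal). -/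
structure FineNormal (κ : Cardinal.{u}) (X : Type u)
    (U : Ultrafilter {x : Set X // #x < κ}) : Prop where
  complete : ∀ S : Set (Set {x : Set X // #x < κ}), #S < κ → (∀ s ∈ S, s ∈ U) → ⋂₀ S ∈ U
  fine : ∀ a : X, {x : {x : Set X // #x < κ} | a ∈ x.1} ∈ U
  normal : ∀ f : {x : Set X // #x < κ} → X, {x : {x : Set X // #x < κ} | f x ∈ x.1} ∈ U →
    ∃ a : X, {x : {x : Set X // #x < κ} | f x = a} ∈ U

variable {κ : Cardinal.{u}} {X : Type u}

/-- The set of `x` closed under `g`. -/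
def Cl (κ : Cardinal.{u}) {X : Type u} (g : X → X) : Set {x : Set X // #x < κ} :=
  {x | ∀ ξ ∈ x.1, g ξ ∈ x.1}

theorem cl_mem {U : Ultrafilter {x : Set X // #x < κ}} (hU : FineNormal κ X U) (g : X → X) :
    Cl κ g ∈ U := by
  classical
  by_contra hc
  have hc' : (Cl κ g)ᶜ ∈ U := Ultrafilter.compl_mem_iff_notMem.mpr hc
  have hne : ∀ x : {x : Set X // #x < κ}, x ∈ (Cl κ g)ᶜ → ∃ ξ ∈ x.1, g ξ ∉ x.1 := by
    intro x hx
    simpa [Cl] using hx
  obtain ⟨x0, hx0⟩ := U.nonempty_of_mem hc'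
  obtain ⟨ξ0, -, -⟩ := hne x0 hx0
  let f : {x : Set X // #x < κ} → X := fun x =>
    if h : ∃ ξ ∈ x.1, g ξ ∉ x.1 then h.choose else ξ0
  have hf : ∀ x ∈ (Cl κ g)ᶜ, f x ∈ x.1 ∧ g (f x) ∉ x.1 := by
    intro x hx
    have h := hne x hx
    simp only [f, dif_pos h]
    exact h.choose_spec
  obtain ⟨a, ha⟩ := hU.normal f (U.mem_of_superset hc' fun x hx => (hf x hx).1)
  obtain ⟨x, ⟨hx1, hx2⟩, hx3⟩ := U.nonempty_of_mem
    (U.inter_mem (U.inter_mem hc' ha) (hU.fine (g a)))
  have h2 : f x = a := hx2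
  have h3 : g a ∈ x.1 := hx3
  exact (hf x hx1).2 (by rw [h2]; exact h3)

/-- A family of self-maps such that any `κ` of them take `κ` many values at some point yields a
family of sets in `U` without large intersections. -/
theorem family {U : Ultrafilter {x : Set X // #x < κ}} (hU : FineNormal κ X U)
    {ι : Type u} (F : ι → X → X)
    (hF : ∀ T : Set ι, #T = κ → ∃ ξ : X, κ ≤ #((fun i => F i ξ) '' T)) (T : Set ι) (hT : #T = κ) :
    (⋂ i ∈ T, Cl κ (F i)) ∉ U := by
  intro hmem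
  obtain ⟨ξ, hξ⟩ := hF T hT
  obtain ⟨x, hx1, hx2⟩ := U.nonempty_of_mem (U.inter_mem hmem (hU.fine ξ))
  have hx2' : ξ ∈ x.1 := hx2
  have hsub : (fun i => F i ξ) '' T ⊆ x.1 := by
    rintro _ ⟨i, hi, rfl⟩
    have := mem_iInter₂.mp hx1 i hi
    exact this ξ hx2'
  exact absurd (hξ.trans (mk_le_mk_of_subset hsub)) (not_le.mpr x.2)

theorem not_gal_of_family (hκ : ℵ₀ ≤ κ) {U : Ultrafilter {x : Set X // #x < κ}}
    (hU : FineNormal κ X U) {ι : Type u} (hι : κ < #ι) (F : ι → X → X)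
    (hF : ∀ T : Set ι, #T = κ → ∃ ξ : X, κ ≤ #((fun i => F i ξ) '' T))
    {lam : Cardinal.{u}} (hlam : lam ≤ #ι) : ¬ Gal U κ lam := by
  classical
  intro hG
  -- the full family of sets
  let A : ι → Set {x : Set X // #x < κ} := fun i => Cl κ (F i)
  have key : ∀ T : Set ι, #T = κ → (⋂ i ∈ T, A i) ∉ U := fun T hT => family hU F hF T hT
  -- fibres of `A` are of size `< κ`
  have hfib : ∀ B : Set {x : Set X // #x < κ}, #(A ⁻¹' {B}) ≤ κ := by
    intro B
    by_contra hlt
    push Not at hlt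
    obtain ⟨T, hTs, hT⟩ := le_mk_iff_exists_subset.mp hlt.le
    refine key T hT ?_
    have hT0 : T.Nonempty := by
      rw [← Set.nonempty_coe_sort, ← mk_ne_zero_iff, hT]
      exact (aleph0_pos.trans_le hκ).ne'
    obtain ⟨i0, hi0⟩ := hT0
    have : (⋂ i ∈ T, A i) = A i0 := by
      apply subset_antisymm (biInter_subset_of_mem hi0)
      refine subset_iInter₂ fun i hi => ?_
      have h1 : A i = B := hTs hi
      have h2 : A i0 = B := hTs hi0
      rw [h1, h2]
    rw [this]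
    exact cl_mem hU _
  have hrange : #ι = #(Set.range A) := by
    apply le_antisymm _ mk_range_le
    by_contra hlt
    push Not at hlt
    have h1 : #ι ≤ #(Set.range A) * κ := by
      have h0 : #ι = #(Σ b : Set.range A, {i // rangeFactorization A i = b}) :=
        (mk_congr (Equiv.sigmaFiberEquiv (rangeFactorization A))).symm
      rw [h0, mk_sigma]
      have h3 : (Cardinal.sum fun b : Set.range A => #{i // rangeFactorization A i = b}) ≤
          Cardinal.sum fun _ : Set.range A => κ := by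
        refine Cardinal.sum_le_sum _ _ fun b => le_trans ?_ (hfib b.1)
        refine mk_le_mk_of_subset (s := {i | rangeFactorization A i = b}) ?_
        intro i hi
        have : rangeFactorization A i = b := hi
        show A i = b.1
        rw [← this]; rfl
      refine h3.trans ?_
      rw [sum_const']
    have h2 : #(Set.range A) * κ < #ι := mul_lt_of_lt (hκ.trans hι.le) hlt hι
    exact absurd h1 (not_le.mpr h2)
  obtain ⟨S, hSs, hS⟩ := le_mk_iff_exists_subset.mp (hlam.trans hrange.le)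
  obtain ⟨T, hTS, hT, hmem⟩ := hG S (by
    intro s hs
    obtain ⟨i, rfl⟩ := hSs hs
    exact cl_mem hU _) hS
  have hch : ∀ t : T, ∃ i, A i = t.1 := fun t => hSs (hTS t.2)
  choose c hc using hch
  have hcinj : Function.Injective c := by
    intro t t' h
    apply Subtype.ext
    rw [← hc t, ← hc t', h]
  refine key (Set.range c) ((mk_range_eq c hcinj).trans hT) ?_
  refine U.mem_of_superset hmem ?_
  refine subset_iInter₂ fun i hi => ?_
  obtain ⟨t, rfl⟩ := hi
  rw [hc t]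
  exact sInter_subset_of_mem t.2


/-! ### Eventually different families -/

/-- In a well-ordered set `Y` of regular type `κ⁺`, `κ` many pairwise eventually different
functions are pairwise different at some point. -/
theorem exists_injOn {Y : Type u} [LinearOrder Y] (hreg : ∀ S : Set Y, #S ≤ κ → ∃ b, ∀ a ∈ S, a < b)
    (hκ : ℵ₀ ≤ κ) {ι : Type u} (F : ι → Y → Y)
    (hF : ∀ i j, i ≠ j → ∃ z, ∀ y, z < y → F i y ≠ F j y) (T : Set ι) (hT : #T = κ) :
    ∃ y : Y, InjOn (fun i => F i y) T := by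
  classical
  have hY : Nonempty Y := by
    obtain ⟨b, -⟩ := hreg ∅ (by simp)
    exact ⟨b⟩
  let z : T × T → Y := fun p => if h : p.1.1 ≠ p.2.1 then (hF _ _ h).choose else Classical.arbitrary Y
  obtain ⟨b, hb⟩ := hreg (range z) (mk_range_le.trans (by simp [mk_prod, hT, mul_eq_self hκ]))
  refine ⟨b, fun i hi j hj hij => ?_⟩
  by_contra hne
  have h1 := hb (z (⟨i, hi⟩, ⟨j, hj⟩)) (mem_range_self _)
  have h2 : z (⟨i, hi⟩, ⟨j, hj⟩) = (hF i j hne).choose := by
    simp only [z]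
    rw [dif_pos hne]
  rw [h2] at h1
  exact (hF i j hne).choose_spec b h1 hij

/-- There are `κ⁺⁺` many pairwise eventually different functions on `κ⁺`. -/
theorem exists_ed {Y : Type u} [LinearOrder Y] [WellFoundedLT Y]
    (hY : #Y = Order.succ κ) (hini : ∀ y : Y, #(Iic y) ≤ κ) :
    ∃ (ι : Type u) (F : ι → Y → Y), Order.succ (Order.succ κ) ≤ #ι ∧
      ∀ i j, i ≠ j → ∃ z, ∀ y, z < y → F i y ≠ F j y := by
  classical
  let r : (Y → Y) → (Y → Y) → Prop := fun f g => ∃ z, ∀ y, z < y → f y ≠ g y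
  obtain ⟨M, -, hM⟩ := zorn_subset_nonempty {M : Set (Y → Y) | M.Pairwise r}
    (by
      intro c hc hchain hne
      refine ⟨⋃₀ c, ?_, fun s hs => subset_sUnion_of_mem hs⟩
      exact (pairwise_sUnion hchain.directedOn).mpr fun s hs => hc hs) ∅ (by simp)
  refine ⟨M, fun f => f.1, ?_, fun i j hij => hM.prop i.2 j.2 fun h => hij (Subtype.ext h)⟩
  by_contra hlt
  rw [not_le, Order.lt_succ_iff, ← hY] at hlt
  -- enumerate `M` by `Y`
  obtain ⟨e⟩ := hlt
  -- the diagonal function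
  have hex : ∀ y : Y, ∃ w : Y, ∀ f : M, e f ≤ y → f.1 y ≠ w := by
    intro y
    by_contra hcon
    push Not at hcon
    have h1 : (Set.univ : Set Y) ⊆ (fun f : M => f.1 y) '' {f : M | e f ≤ y} := by
      intro w _
      obtain ⟨f, hf1, hf2⟩ := hcon w
      exact ⟨f, hf1, hf2⟩
    have h2 : #Y ≤ κ := by
      rw [← mk_univ]
      refine (mk_le_mk_of_subset h1).trans (mk_image_le.trans ?_)
      refine le_trans ?_ (hini y)
      refine mk_le_of_injective (f := fun f : {f : M | e f ≤ y} => (⟨e f.1, f.2⟩ : Iic y)) ?_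
      intro f g hfg
      have : e f.1 = e g.1 := congrArg Subtype.val hfg
      exact Subtype.ext (e.injective this)
    rw [hY] at h2
    exact absurd (Order.lt_succ κ) (not_lt.mpr h2)
  choose d hd using hex
  have hdr : ∀ f : M, r f.1 d := fun f => ⟨e f, fun y hy => hd y f hy.le⟩
  have hdM : d ∉ M := by
    intro hdM
    exact hd (e ⟨d, hdM⟩) ⟨d, hdM⟩ le_rfl rfl
  have hins : insert d M ∈ {M : Set (Y → Y) | M.Pairwise r} := by
    refine hM.prop.insert fun f hf hne => ?_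
    obtain ⟨z, hz⟩ := hdr ⟨f, hf⟩
    exact ⟨⟨z, fun y hy => (hz y hy).symm⟩, ⟨z, hz⟩⟩
  exact hdM (hM.le_of_ge hins (subset_insert d M) (mem_insert d M))

/-- If `2 ^ κ = κ⁺`, there are `2 ^ κ⁺` many pairwise eventually different functions on `κ⁺`. -/
theorem exists_ed_ch {Y : Type u} [LinearOrder Y] [WellFoundedLT Y]
    (hY : #Y = Order.succ κ) (hini : ∀ y : Y, #(Iic y) ≤ κ) (hch : (2 : Cardinal.{u}) ^ κ = Order.succ κ) :
    ∃ (ι : Type u) (F : ι → Y → Y), (2 : Cardinal.{u}) ^ Order.succ κ = #ι ∧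
      ∀ i j, i ≠ j → ∃ z, ∀ y, z < y → F i y ≠ F j y := by
  classical
  have hcode : ∀ y : Y, Nonempty (Set (Iic y) ↪ Y) := by
    intro y
    rw [← Cardinal.le_def, mk_set, hY, ← hch]
    exact power_le_power_left two_ne_zero (hini y)
  let c : ∀ y : Y, Set (Iic y) ↪ Y := fun y => (hcode y).some
  refine ⟨Set Y, fun S y => c y (Subtype.val ⁻¹' S), by rw [mk_set, hY], ?_⟩
  intro S S' hne
  have : ∃ z, ¬ (z ∈ S ↔ z ∈ S') := by
    by_contra hcon
    push Not at hcon
    exact hne (Set.ext hcon)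
  obtain ⟨z, hz⟩ := this
  refine ⟨z, fun y hy heq => hz ?_⟩
  have h1 := (c y).injective heq
  have h2 : (⟨z, hy.le⟩ : Iic y) ∈ (Subtype.val ⁻¹' S : Set (Iic y)) ↔
      (⟨z, hy.le⟩ : Iic y) ∈ (Subtype.val ⁻¹' S' : Set (Iic y)) := by rw [h1]
  exact h2

theorem bdd_of_small {Y : Type u} [LinearOrder Y] (hκ : ℵ₀ ≤ κ)
    (hY : #Y = Order.succ κ) (hini : ∀ y : Y, #(Iic y) ≤ κ) (S : Set Y) (hS : #S ≤ κ) :
    ∃ b, ∀ a ∈ S, a < b := by
  by_contra hcon
  push Not at hcon
  have h1 : (Set.univ : Set Y) ⊆ ⋃ s : S, Iic s.1 := by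
    intro y _
    obtain ⟨a, ha, hya⟩ := hcon y
    exact mem_iUnion.mpr ⟨⟨a, ha⟩, hya⟩
  have h2 : #Y ≤ κ := by
    rw [← mk_univ]
    refine (mk_le_mk_of_subset h1).trans ((mk_iUnion_le _).trans ?_)
    calc #S * (⨆ i : S, #(Iic i.1)) ≤ κ * κ := mul_le_mul' hS (ciSup_le' fun i => hini _)
      _ = κ := mul_eq_self hκ
  rw [hY] at h2
  exact absurd (Order.lt_succ κ) (not_lt.mpr h2)

/-- **Main theorem.** A fine normal ultrafilter over `P_κ(κ⁺)` never has the Galvin property for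
families of size at most `κ⁺⁺`, and if `2 ^ κ = κ⁺` it does not have it for families of size at
most `2 ^ κ⁺` either. In particular `Gal(U, κ, 2 ^ κ⁺)` fails whenever `2 ^ κ = κ⁺` or
`2 ^ κ⁺ = κ⁺⁺`. -/
theorem result (κ : Cardinal.{u}) (X : Type u) (hκ : ℵ₀ < κ) (hX : #X = Order.succ κ)
    (U : Ultrafilter {x : Set X // #x < κ}) (hU : FineNormal κ X U) (lam : Cardinal.{u})
    (hlam : lam ≤ Order.succ (Order.succ κ) ∨
      ((2 : Cardinal.{u}) ^ κ = Order.succ κ ∧ lam ≤ (2 : Cardinal.{u}) ^ Order.succ κ)) :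
    ¬ Gal U κ lam := by
  classical
  have hXY : #X = #(Order.succ κ).ord.ToType := by rw [hX, mk_ord_toType]
  obtain ⟨e⟩ := Cardinal.eq.mp hXY
  let _ : LinearOrder X := LinearOrder.lift' e e.injective
  have hmono : ∀ a b : X, a < b ↔ e a < e b := fun a b => Iff.rfl
  have _ : WellFoundedLT X := ⟨InvImage.wf e wellFounded_lt⟩
  have hini : ∀ y : X, #(Iic y) ≤ κ := by
    intro y
    have h1 : #(Iic y) ≤ #(Iic (e y)) := by
      refine mk_le_of_injective (f := fun a : Iic y => (⟨e a.1, a.2⟩ : Iic (e y))) ?_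
      intro a b hab
      exact Subtype.ext (e.injective (congrArg Subtype.val hab))
    refine h1.trans ?_
    have h2 : #(Iio (e y)) ≤ κ := Order.lt_succ_iff.mp (mk_Iio_toType_ord_lt (e y))
    have h3 : Iic (e y) = insert (e y) (Iio (e y)) := by
      ext a; simp [le_iff_eq_or_lt]
    rw [h3]
    refine (mk_insert_le).trans ?_
    calc #(Iio (e y)) + 1 ≤ κ + κ := add_le_add h2 (one_le_aleph0.trans hκ.le)
      _ = κ := add_eq_self hκ.le
  have main : ∀ (ι : Type u) (F : ι → X → X), κ < #ι → lam ≤ #ι →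
      (∀ i j, i ≠ j → ∃ z, ∀ y, z < y → F i y ≠ F j y) → ¬ Gal U κ lam := by
    intro ι F h1 h2 h3
    refine not_gal_of_family hκ.le hU h1 F ?_ h2
    intro T hT
    obtain ⟨y, hy⟩ := exists_injOn (bdd_of_small hκ.le hX hini) hκ.le F h3 T hT
    exact ⟨y, by rw [mk_image_eq_of_injOn _ _ hy, hT]⟩
  rcases hlam with h | ⟨hch, h⟩
  · obtain ⟨ι, F, h1, h2⟩ := exists_ed hX hini
    exact main ι F ((Order.lt_succ κ).trans ((Order.lt_succ _).trans_le h1)) (h.trans h1) h2
  · obtain ⟨ι, F, h1, h2⟩ := exists_ed_ch hX hini hch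
    refine main ι F ?_ (h.trans h1.le) h2
    rw [← h1]
    exact (Order.lt_succ κ).trans (cantor _)

end Pool.Agent.Results.MP_a3089e_lc.NonGalvin
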